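import Pool.Agent.Helper712_LP.Stmts

/-!
# Independent Brownian motions: restarting, law of a path, independence of the paths
-/

set_option autoImplicit false

namespace Pool.Agent.Helper344_LP

open MeasureTheory ProbabilityTheory Set Filter Topology
open scoped ENNReal NNReal
open Pool.Agent.Helper712_LP

/-- the map from coordinate paths to paths -/
noncomputable def glue {d : ℕ} (w : Fin d → ℝ≥0 → ℝ) (t : ℝ≥0) : E d :=
  WithLp.toLp 2 (fun j => w j t)

lemma measurable_glue {d : ℕ} : Measurable (glue (d := d)) := by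
  refine measurable_pi_lambda _ fun t => ?_
  unfold glue
  refine (WithLp.measurable_toLp 2 _).comp ?_
  refine measurable_pi_lambda _ fun j => ?_
  exact (measurable_pi_apply t).comp (measurable_pi_apply j)

lemma glue_coord {d : ℕ} {Ω : Type} (Z : ℝ≥0 → Ω → E d) (ω : Ω) :
    glue (fun j t => Z t ω j) = fun t => Z t ω := by
  funext t
  rfl

lemma measurable_coord {d : ℕ} (j : Fin d) : Measurable (fun x : E d => x j) := by
  have : Measurable (fun x : E d => (WithLp.ofLp x) j) :=
    (measurable_pi_apply j).comp (WithLp.measurable_ofLp 2 _)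
  exact this

lemma shift : S_shift := by
  intro d Ω _ P _ Z hZ s
  refine ⟨fun i t => (hZ.measurable i (s + t)).sub (hZ.measurable i s), fun i j => ?_, ?_⟩
  · exact (hZ.brownian i j).shift s
  · have h := hZ.indep.comp (fun _ (w : ℝ≥0 → ℝ) (t : ℝ≥0) => w (s + t) - w s) (fun _ => by
      refine measurable_pi_lambda _ fun t => ?_
      exact (measurable_pi_apply _).sub (measurable_pi_apply _))
    exact h

/-- The law of a real coordinate path is the projective limit. -/
lemma coord_law {Ω : Type} [MeasurableSpace Ω] (P : Measure Ω) (B : ℝ≥0 → Ω → ℝ)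
    (hm : ∀ t, Measurable (B t)) (hB : IsPreBrownianReal B P) :
    IsProjectiveLimit (P.map (fun ω (t : ℝ≥0) => B t ω)) BrownianReal.projectiveFamily := by
  intro I
  rw [Measure.map_map (Finset.measurable_restrict I) (measurable_pi_lambda _ hm)]
  exact (hB.hasLaw I).map_eq

lemma coord_law_eq {Ω Ω' : Type} [MeasurableSpace Ω] [MeasurableSpace Ω'] (P : Measure Ω)
    (P' : Measure Ω') (B : ℝ≥0 → Ω → ℝ) (B' : ℝ≥0 → Ω' → ℝ)
    (hm : ∀ t, Measurable (B t)) (hB : IsPreBrownianReal B P)
    (hm' : ∀ t, Measurable (B' t)) (hB' : IsPreBrownianReal B' P') :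
    P.map (fun ω (t : ℝ≥0) => B t ω) = P'.map (fun ω (t : ℝ≥0) => B' t ω) :=
  (coord_law P B hm hB).unique (coord_law P' B' hm' hB')

lemma measurable_coordPath {d : ℕ} {Ω : Type} [MeasurableSpace Ω] {P : Measure Ω}
    {Z : ℕ → ℝ≥0 → Ω → E d} (hZ : Motions P Z) (i : ℕ) (j : Fin d) :
    Measurable (fun ω (t : ℝ≥0) => Z i t ω j) :=
  measurable_pi_lambda _ fun t => (measurable_coord j).comp (hZ.measurable i t)

lemma paths_law {d : ℕ} {Ω : Type} [MeasurableSpace Ω] {P : Measure Ω}
    {Z : ℕ → ℝ≥0 → Ω → E d} (hZ : Motions P Z) (i : ℕ) :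
    P.map (fun ω (j : Fin d) (t : ℝ≥0) => Z i t ω j) =
      Measure.infinitePi (fun j => P.map (fun ω (t : ℝ≥0) => Z i t ω j)) := by
  have h : iIndepFun (fun (j : Fin d) ω (t : ℝ≥0) => Z i t ω j) P :=
    iIndepFun.precomp (g := fun j : Fin d => ((i, j) : ℕ × Fin d))
      (fun a b hab => (Prod.mk.inj hab).2) hZ.indep
  exact h.map_fun_eq_infinitePi_map (fun j => measurable_coordPath hZ i j)

lemma pathLaw : S_pathLaw := by
  intro d Ω Ω' _ _ P P' _ _ Z Z' hZ hZ' i i'
  have h1 : (fun ω (t : ℝ≥0) => Z i t ω) =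
      glue ∘ (fun ω (j : Fin d) (t : ℝ≥0) => Z i t ω j) := rfl
  have h2 : (fun ω (t : ℝ≥0) => Z' i' t ω) =
      glue ∘ (fun ω (j : Fin d) (t : ℝ≥0) => Z' i' t ω j) := rfl
  rw [h1, h2, ← Measure.map_map measurable_glue
    (measurable_pi_lambda _ fun j => measurable_coordPath hZ i j),
    ← Measure.map_map measurable_glue
    (measurable_pi_lambda _ fun j => measurable_coordPath hZ' i' j), paths_law hZ, paths_law hZ']
  congr 2
  funext j
  refine coord_law_eq P P' _ _ (fun t => (measurable_coord j).comp (hZ.measurable i t))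
    (hZ.brownian i j).toIsPreBrownianReal
    (fun t => (measurable_coord j).comp (hZ'.measurable i' t)) (hZ'.brownian i' j).toIsPreBrownianReal

/-- Regrouping a family of independent random variables indexed by pairs. -/
lemma curry_indep {Ω : Type} [MeasurableSpace Ω] (P : Measure Ω) [IsProbabilityMeasure P]
    {κ : Type} {S : Type} [MeasurableSpace S] (X : ℕ → κ → Ω → S) (hX : ∀ i j, Measurable (X i j))
    (h : iIndepFun (fun (p : ℕ × κ) ω => X p.1 p.2 ω) P) :
    iIndepFun (fun i ω (j : κ) => X i j ω) P := by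
  have h' : iIndepFun (fun (p : (_ : ℕ) × κ) ω => X p.1 p.2 ω) P :=
    iIndepFun.precomp (g := fun p : (_ : ℕ) × κ => ((p.1, p.2) : ℕ × κ))
      (Equiv.sigmaEquivProd ℕ κ).injective h
  have : ∀ i j, IsProbabilityMeasure (P.map (X i j)) :=
    fun i j ↦ Measure.isProbabilityMeasure_map (hX i j).aemeasurable
  have hc : (MeasurableEquiv.piCurry (fun (_ : ℕ) (_ : κ) => S)) ∘
      (fun ω (p : (_ : ℕ) × κ) ↦ X p.1 p.2 ω) = fun ω i j ↦ X i j ω := by
    ext; simp [Sigma.curry]
  rw [iIndepFun_iff_map_fun_eq_infinitePi_map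
    (fun i => measurable_pi_lambda _ fun j => hX i j)]
  have e1 : P.map (fun ω i j => X i j ω) =
      (P.map (fun ω (p : (_ : ℕ) × κ) ↦ X p.1 p.2 ω)).map
        (MeasurableEquiv.piCurry (fun (_ : ℕ) (_ : κ) => S)) := by
    rw [Measure.map_map (MeasurableEquiv.measurable _)
      (measurable_pi_lambda _ fun p : (_ : ℕ) × κ => hX p.1 p.2), hc]
  have e2 : P.map (fun ω (p : (_ : ℕ) × κ) ↦ X p.1 p.2 ω) =
      Measure.infinitePi (fun p : (_ : ℕ) × κ => P.map (X p.1 p.2)) :=
    h'.map_fun_eq_infinitePi_map (fun p => hX p.1 p.2)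
  rw [e1, e2, Measure.infinitePi_map_piCurry (fun i j ↦ P.map (X i j))]
  congr 1
  funext i
  have h2 : iIndepFun (X i) P :=
    iIndepFun.precomp (g := fun j : κ => ((i, j) : ℕ × κ))
      (fun a b hab => (Prod.mk.inj hab).2) h
  exact (h2.map_fun_eq_infinitePi_map (fun j => hX i j)).symm

lemma pathIndep : S_pathIndep := by
  intro d Ω _ P _ Z hZ
  have h := curry_indep P (fun i (j : Fin d) ω (t : ℝ≥0) => Z i t ω j)
    (fun i j => measurable_coordPath hZ i j) hZ.indep
  exact h.comp (fun _ => glue) (fun _ => measurable_glue)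

/-- TARGET -/
theorem target : S_shift ∧ S_pathLaw ∧ S_pathIndep := ⟨shift, pathLaw, pathIndep⟩

end Pool.Agent.Helper344_LP
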